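import Pool.Agent.Q121.MM.Main

set_option autoImplicit false
set_option linter.unusedSectionVars false

/-! The blow up of a stable maximal ideal. -/

namespace Pool.Agent.Q121.MM

open Submodule IsLocalRing
open scoped nonZeroDivisors TensorProduct

section

variable {R : Type*} [CommRing R] [IsDomain R] [IsLocalRing R] {K : Type*} [Field K] [Algebra R K]
  [IsFractionRing R K]

theorem sp_mul_eq_smul (x : R) (N : Submodule R K) : sp R (algebraMap R K x) * N = Ideal.span {x} • N := by
  apply le_antisymm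
  · intro y hy
    obtain ⟨t, ht, rfl⟩ := mem_sp_mul.1 hy
    rw [← Algebra.smul_def]
    exact Submodule.smul_mem_smul (Ideal.mem_span_singleton_self x) ht
  · rw [Submodule.smul_le]
    intro r hr n hn
    obtain ⟨s, rfl⟩ := Ideal.mem_span_singleton'.1 hr
    refine mem_sp_mul.2 ⟨s • n, N.smul_mem s hn, ?_⟩
    rw [← Algebra.smul_def, smul_smul, mul_comm]

theorem M0_mul_M0 {x : R} (h : maximalIdeal R ^ 2 = Ideal.span {x} * maximalIdeal R) :
    M0 R K * M0 R K = sp R (algebraMap R K x) * M0 R K := by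
  rw [M0_mul, sp_mul_eq_smul]
  unfold M0
  rw [← Submodule.map_smul'', ← Submodule.map_smul'']
  congr 1
  rw [smul_eq_mul, smul_eq_mul, ← h, pow_two]

variable [IsNoetherianRing R] [Ring.KrullDimLE 1 R]

theorem stable_of (hR : ¬ IsField R) {x : R} (hx : x ∈ maximalIdeal R)
    (h : maximalIdeal R ^ 2 = Ideal.span {x} * maximalIdeal R) :
    Stable (sp R (algebraMap R K x)⁻¹ * M0 R K) (ln (1 : Submodule R K) (sp R (algebraMap R K x) * 1)) := by
  have hm : maximalIdeal R ≠ ⊥ := fun h0 => hR (IsLocalRing.isField_iff_maximalIdeal_eq.2 h0)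
  have hx0 : x ≠ 0 := by
    rintro rfl
    apply hm
    rw [Ideal.span_singleton_eq_bot.2 rfl, Submodule.bot_mul] at h
    exact eq_zero_of_pow_eq_zero (n := 2) h
  have hx' : algebraMap R K x ≠ 0 := by
    rwa [Ne, FaithfulSMul.algebraMap_eq_zero_iff]
  have hM : M0 R K * M0 R K = sp R (algebraMap R K x) * M0 R K := M0_mul_M0 h
  have hfg : (sp R (algebraMap R K x)⁻¹ * M0 R K).FG :=
    Submodule.FG.mul (Submodule.fg_span_singleton _) ((IsNoetherian.noetherian (maximalIdeal R)).map _)
  have hone : (1 : Submodule R K) ≤ sp R (algebraMap R K x)⁻¹ * M0 R K := by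
    rw [Submodule.one_le]
    exact mem_sp_mul.2 ⟨algebraMap R K x, ⟨x, hx, rfl⟩, inv_mul_cancel₀ hx'⟩
  refine ⟨hone, ?_, ?_, hfg, ?_⟩
  · calc sp R (algebraMap R K x)⁻¹ * M0 R K * (sp R (algebraMap R K x)⁻¹ * M0 R K)
        = sp R (algebraMap R K x)⁻¹ * (sp R (algebraMap R K x)⁻¹ * (M0 R K * M0 R K)) := by ring
      _ = sp R (algebraMap R K x)⁻¹ * M0 R K := by rw [hM, sp_inv_mul hx']
  · calc M0 R K * (sp R (algebraMap R K x)⁻¹ * M0 R K)
        = sp R (algebraMap R K x)⁻¹ * (M0 R K * M0 R K) := by ring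
      _ = M0 R K := by rw [hM, sp_inv_mul hx']
  · intro T h1 h2 h3
    have h4 : M0 R K * T = sp R (algebraMap R K x) * T := by
      calc M0 R K * T = sp R (algebraMap R K x) * (sp R (algebraMap R K x)⁻¹ * (M0 R K * T)) :=
            (sp_mul_inv hx' _).symm
        _ = sp R (algebraMap R K x) * ((sp R (algebraMap R K x)⁻¹ * M0 R K) * T) := by rw [mul_assoc]
        _ = _ := by rw [h3]
    rw [h4]
    refine ln_const hx0 h1 h2 ?_ ?_
    · rw [Submodule.one_eq_span]
      exact Submodule.fg_span_singleton _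
    · exact one_ne_zero

end

end Pool.Agent.Q121.MM
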