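import Pool.Agent.Q121.MM.Len

set_option autoImplicit false
set_option linter.unusedSectionVars false

/-! Fractional ideals of a one-dimensional local domain: lengths. -/

namespace Pool.Agent.Q121.MM

open Submodule IsLocalRing
open scoped nonZeroDivisors

section

variable {R : Type*} [CommRing R] [IsDomain R] {K : Type*} [Field K] [Algebra R K] [IsFractionRing R K]

/-- principal fractional ideals -/
def sp (R : Type*) [CommRing R] {K : Type*} [Field K] [Algebra R K] (c : K) : Submodule R K := Submodule.span R {c}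

theorem sp_mul (c d : K) : sp R c * sp R d = sp R (c * d) := by
  unfold sp
  rw [Submodule.span_mul_span, Set.singleton_mul_singleton]

theorem sp_one : sp R (1 : K) = 1 := Submodule.one_eq_span.symm

theorem mem_sp_mul {c x : K} {T : Submodule R K} : x ∈ sp R c * T ↔ ∃ t ∈ T, c * t = x :=
  Submodule.mem_span_singleton_mul

theorem sp_inv_mul {c : K} (hc : c ≠ 0) (T : Submodule R K) : sp R c⁻¹ * (sp R c * T) = T := by
  rw [← mul_assoc, sp_mul, inv_mul_cancel₀ hc, sp_one, one_mul]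

theorem sp_mul_inv {c : K} (hc : c ≠ 0) (T : Submodule R K) : sp R c * (sp R c⁻¹ * T) = T := by
  rw [← mul_assoc, sp_mul, mul_inv_cancel₀ hc, sp_one, one_mul]

theorem sp_mul_mono (c : K) {A B : Submodule R K} (h : B ≤ A) : sp R c * B ≤ sp R c * A :=
  mul_le_mul_right h _

theorem ln_sp_le {c : K} (hc : c ≠ 0) {A B : Submodule R K} (h : B ≤ A) :
    ln A B ≤ ln (sp R c * A) (sp R c * B) := by
  refine ln_le_of_strictMono h (sp_mul_mono c h) (fun T => sp R c * T)
    (fun T h1 h2 => ⟨sp_mul_mono c h1, sp_mul_mono c h2⟩) fun T₁ T₂ _ _ h12 => ?_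
  refine lt_of_le_of_ne (sp_mul_mono c h12.le) fun heq => ?_
  have := congrArg (fun T => sp R c⁻¹ * T) heq
  simp only [sp_inv_mul hc] at this
  exact absurd this h12.ne

theorem ln_sp {c : K} (hc : c ≠ 0) {A B : Submodule R K} (h : B ≤ A) :
    ln (sp R c * A) (sp R c * B) = ln A B := by
  refine le_antisymm ?_ (ln_sp_le hc h)
  have := ln_sp_le (inv_ne_zero hc) (sp_mul_mono c h)
  rwa [sp_inv_mul hc, sp_inv_mul hc] at this

theorem exists_ne_zero {B : Submodule R K} (hB : B ≠ ⊥) : ∃ b ∈ B, b ≠ 0 := Submodule.exists_mem_ne_zero_of_ne_bot hB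

theorem sp_ne_bot {c : K} (hc : c ≠ 0) {A : Submodule R K} (hA : A ≠ ⊥) : sp R c * A ≠ ⊥ := by
  obtain ⟨a, ha, ha0⟩ := exists_ne_zero hA
  intro h
  have : c * a ∈ sp R c * A := mem_sp_mul.2 ⟨a, ha, rfl⟩
  rw [h, Submodule.mem_bot] at this
  exact mul_ne_zero hc ha0 this

theorem mul_ne_bot {A B : Submodule R K} (hA : A ≠ ⊥) (hB : B ≠ ⊥) : A * B ≠ ⊥ := by
  obtain ⟨a, ha, ha0⟩ := exists_ne_zero hA
  obtain ⟨b, hb, hb0⟩ := exists_ne_zero hB
  intro h
  have : a * b ∈ A * B := Submodule.mul_mem_mul ha hb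
  rw [h, Submodule.mem_bot] at this
  exact mul_ne_zero ha0 hb0 this

/-- a common denominator -/
theorem exists_smul_le {A B : Submodule R K} (hA : A.FG) (hB : B ≠ ⊥) :
    ∃ r : R, r ≠ 0 ∧ ∀ a ∈ A, r • a ∈ B := by
  classical
  obtain ⟨b, hb, hb0⟩ := exists_ne_zero hB
  obtain ⟨s, rfl⟩ := hA
  obtain ⟨⟨r, hr⟩, h⟩ := IsLocalization.exist_integer_multiples_of_finset R⁰ (s.image fun a => a / b)
  refine ⟨r, nonZeroDivisors.ne_zero hr, fun a ha => ?_⟩
  have : span R (s : Set K) ≤ B.comap (r • LinearMap.id) := by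
    rw [Submodule.span_le]
    intro y hy
    obtain ⟨p, hp⟩ := h (y / b) (Finset.mem_image_of_mem _ hy)
    show r • y ∈ B
    have e : r • y = p • b := by
      have h3 : (r • (y / b)) * b = r • y := by
        rw [smul_mul_assoc, div_mul_cancel₀ _ hb0]
      rw [← h3]
      have h4 : r • (y / b) = algebraMap R K p := hp.symm
      rw [h4, Algebra.smul_def]
    rw [e]
    exact B.smul_mem p hb
  exact this ha

theorem fg_of_le [IsNoetherianRing R] {A B : Submodule R K} (hA : A.FG) (h : B ≤ A) : B.FG := by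
  have : IsNoetherian R A := isNoetherian_of_fg_of_noetherian A hA
  have h2 : (B.submoduleOf A).FG := IsNoetherian.noetherian _
  have h3 := h2.map A.subtype
  rwa [Submodule.submoduleOf, Submodule.map_comap_eq, Submodule.range_subtype, inf_eq_right.2 h] at h3

theorem krullDimLE_quot [Ring.KrullDimLE 1 R] {r : R} (hr : r ≠ 0) : Ring.KrullDimLE 0 (R ⧸ Ideal.span {r}) := by
  rw [Ring.krullDimLE_zero_iff]
  intro P hP
  have h1 : (P.comap (Ideal.Quotient.mk (Ideal.span {r}))).IsPrime := Ideal.comap_isPrime _ _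
  have h2 : P.comap (Ideal.Quotient.mk (Ideal.span {r})) ≠ ⊥ := by
    intro h
    have : r ∈ P.comap (Ideal.Quotient.mk (Ideal.span {r})) := by
      rw [Ideal.mem_comap, Ideal.Quotient.eq_zero_iff_mem.2 (Ideal.mem_span_singleton_self r)]
      exact P.zero_mem
    rw [h, Ideal.mem_bot] at this
    exact hr this
  have h3 := Ring.krullDimLE_one_iff_of_noZeroDivisors.1 (inferInstanceAs (Ring.KrullDimLE 1 R)) _ h2 h1
  rcases Ideal.map_eq_top_or_isMaximal_of_surjective _ (Ideal.Quotient.mk_surjective (I := Ideal.span {r})) h3 with h4 | h4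
  · exfalso
    rw [Ideal.map_comap_of_surjective _ Ideal.Quotient.mk_surjective] at h4
    exact hP.ne_top h4
  · rwa [Ideal.map_comap_of_surjective _ Ideal.Quotient.mk_surjective] at h4

theorem ln_ne_top [IsNoetherianRing R] [Ring.KrullDimLE 1 R] {A B : Submodule R K} (hA : A.FG) (hB : B ≠ ⊥) :
    ln A B ≠ ⊤ := by
  obtain ⟨r, hr, h⟩ := exists_smul_le hA hB
  have hQ : Module.IsTorsionBySet R (A ⧸ B.submoduleOf A) (Ideal.span {r} : Ideal R) := by
    rw [Ideal.submodule_span_eq.symm, Module.isTorsionBySet_span_singleton_iff]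
    intro y
    obtain ⟨a, rfl⟩ := Submodule.mkQ_surjective _ y
    rw [← map_smul, Submodule.mkQ_apply, Submodule.Quotient.mk_eq_zero]
    exact h a.1 a.2
  letI := hQ.module
  have := krullDimLE_quot hr
  have hart : IsArtinianRing (R ⧸ Ideal.span {r}) := by
    rw [isArtinianRing_iff_isNoetherianRing_krullDimLE_zero]
    exact ⟨inferInstance, this⟩
  have : Module.Finite R A := Module.Finite.iff_fg.2 hA
  have ht : IsScalarTower R (R ⧸ Ideal.span {r}) (A ⧸ B.submoduleOf A) := hQ.isScalarTower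
  have : Module.Finite (R ⧸ Ideal.span {r}) (A ⧸ B.submoduleOf A) := Module.Finite.of_restrictScalars_finite R _ _
  unfold ln
  rw [Module.length_eq_of_surjective (R := R ⧸ Ideal.span {r}) (S := R) Ideal.Quotient.mk_surjective]
  exact Module.length_ne_top

theorem sp_le {x : R} (T : Submodule R K) : sp R (algebraMap R K x) * T ≤ T := by
  intro y hy
  obtain ⟨t, ht, rfl⟩ := mem_sp_mul.1 hy
  rw [← Algebra.smul_def]
  exact T.smul_mem x ht

theorem ln_const_le [IsNoetherianRing R] [Ring.KrullDimLE 1 R] {x : R} (hx : x ≠ 0) {T₁ T₂ : Submodule R K}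
    (h1 : T₁.FG) (h2 : T₂ ≠ ⊥) (h : T₂ ≤ T₁) :
    ln T₁ (sp R (algebraMap R K x) * T₁) = ln T₂ (sp R (algebraMap R K x) * T₂) := by
  have hx' : algebraMap R K x ≠ 0 := by
    rwa [Ne, FaithfulSMul.algebraMap_eq_zero_iff]
  have e1 := ln_add (sp_mul_mono (algebraMap R K x) h) (sp_le (x := x) T₁)
  have e2 := ln_add (sp_le (x := x) T₂) h
  rw [ln_sp hx' h] at e1
  rw [e1] at e2
  have h3 : ln T₁ T₂ ≠ ⊤ := ln_ne_top h1 h2
  rw [add_comm (ln T₂ _)] at e2
  exact ENat.add_right_injective_of_ne_top h3 e2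

theorem ln_const [IsNoetherianRing R] [Ring.KrullDimLE 1 R] {x : R} (hx : x ≠ 0) {T₁ T₂ : Submodule R K}
    (h1 : T₁.FG) (h1' : T₁ ≠ ⊥) (h2 : T₂.FG) (h2' : T₂ ≠ ⊥) :
    ln T₁ (sp R (algebraMap R K x) * T₁) = ln T₂ (sp R (algebraMap R K x) * T₂) := by
  obtain ⟨r, hr, h⟩ := exists_smul_le h2 h1'
  have hr' : algebraMap R K r ≠ 0 := by
    rwa [Ne, FaithfulSMul.algebraMap_eq_zero_iff]
  have h3 : sp R (algebraMap R K r) * T₂ ≤ T₁ := by
    intro y hy
    obtain ⟨t, ht, rfl⟩ := mem_sp_mul.1 hy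
    rw [← Algebra.smul_def]
    exact h t ht
  rw [ln_const_le hx h1 (sp_ne_bot hr' h2') h3, mul_left_comm, ln_sp hr' (sp_le T₂)]

end

end Pool.Agent.Q121.MM
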