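import Mathlib

set_option autoImplicit false

/-! The length of the quotient of two submodules and the interval between them. -/

namespace Pool.Agent.Q121.MM

open Submodule

section

variable {R M : Type*} [CommRing R] [AddCommGroup M] [Module R M]

/-- the length of `A / B` for submodules `B ≤ A` -/
noncomputable def ln (A B : Submodule R M) : ℕ∞ := Module.length R (A ⧸ B.submoduleOf A)

/-- the submodules of `A / B` are those between `B` and `A` -/
noncomputable def icc (A B : Submodule R M) (h : B ≤ A) :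
    Set.Ici (B.submoduleOf A) ≃o Set.Icc B A where
  toFun X := ⟨X.1.map A.subtype, by
    constructor
    · intro b hb
      exact ⟨⟨b, h hb⟩, X.2 (by simpa [Submodule.submoduleOf] using hb), rfl⟩
    · rintro _ ⟨a, -, rfl⟩
      exact a.2⟩
  invFun T := ⟨T.1.submoduleOf A, fun a ha => by
    simp only [Submodule.submoduleOf, Submodule.mem_comap] at ha ⊢
    exact T.2.1 ha⟩
  left_inv X := by
    apply Subtype.ext
    simp only [Submodule.submoduleOf]
    exact Submodule.comap_map_eq_of_injective A.injective_subtype _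
  right_inv T := by
    apply Subtype.ext
    simp only [Submodule.submoduleOf]
    rw [Submodule.map_comap_eq, Submodule.range_subtype]
    exact inf_eq_right.2 T.2.2
  map_rel_iff' := by
    intro X Y
    simp only [Equiv.coe_fn_mk, Subtype.mk_le_mk]
    constructor
    · intro hXY
      have := (Submodule.map_le_map_iff_of_injective A.injective_subtype X.1 Y.1).1 hXY
      exact this
    · intro hXY
      exact Submodule.map_mono hXY

theorem ln_eq (A B : Submodule R M) (h : B ≤ A) :
    (ln A B : WithBot ℕ∞) = Order.krullDim (Set.Icc B A) := by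
  unfold ln
  rw [Module.coe_length, Order.krullDim_eq_of_orderIso (Submodule.comapMkQRelIso _),
    Order.krullDim_eq_of_orderIso (icc A B h)]

variable {N : Type*} [AddCommGroup N] [Module R N]

theorem ln_le_of_strictMono {A B : Submodule R M} {C D : Submodule R N} (h : B ≤ A) (h' : D ≤ C)
    (g : Submodule R M → Submodule R N) (hg : ∀ T, B ≤ T → T ≤ A → D ≤ g T ∧ g T ≤ C)
    (hs : ∀ T₁ T₂, B ≤ T₁ → T₂ ≤ A → T₁ < T₂ → g T₁ < g T₂) : ln A B ≤ ln C D := by
  have : (ln A B : WithBot ℕ∞) ≤ ln C D := by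
    rw [ln_eq A B h, ln_eq C D h']
    exact Order.krullDim_le_of_strictMono (fun T => ⟨g T.1, hg T.1 T.2.1 T.2.2⟩)
      fun T₁ T₂ h12 => hs T₁.1 T₂.1 T₁.2.1 T₂.2.2 h12
  exact WithBot.coe_le_coe.1 this

theorem ln_le_of_strictAnti {A B : Submodule R M} {C D : Submodule R N} (h : B ≤ A) (h' : D ≤ C)
    (g : Submodule R M → Submodule R N) (hg : ∀ T, B ≤ T → T ≤ A → D ≤ g T ∧ g T ≤ C)
    (hs : ∀ T₁ T₂, B ≤ T₁ → T₂ ≤ A → T₁ < T₂ → g T₂ < g T₁) : ln A B ≤ ln C D := by
  have : (ln A B : WithBot ℕ∞) ≤ ln C D := by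
    rw [ln_eq A B h, ln_eq C D h', ← Order.krullDim_orderDual (α := Set.Icc D C)]
    exact Order.krullDim_le_of_strictMono
      (fun T => OrderDual.toDual (⟨g T.1, hg T.1 T.2.1 T.2.2⟩ : Set.Icc D C))
      fun T₁ T₂ h12 => hs T₁.1 T₂.1 T₁.2.1 T₂.2.2 h12
  exact WithBot.coe_le_coe.1 this

theorem ln_add {A B C : Submodule R M} (h1 : C ≤ B) (h2 : B ≤ A) : ln A C = ln B C + ln A B := by
  unfold ln
  have e1 : C.submoduleOf B ≤ (C.submoduleOf A).comap (Submodule.inclusion h2) := fun x hx => hx
  have e2 : C.submoduleOf A ≤ (B.submoduleOf A).comap LinearMap.id := fun x hx => h1 hx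
  refine Module.length_eq_add_of_exact
    (Submodule.mapQ _ _ (Submodule.inclusion h2) e1) (Submodule.mapQ _ _ LinearMap.id e2) ?_ ?_ ?_
  · rw [← LinearMap.ker_eq_bot, Submodule.ker_mapQ]
    rw [← le_bot_iff, Submodule.map_le_iff_le_comap, Submodule.comap_bot, Submodule.ker_mkQ]
    exact fun x hx => hx
  · intro y
    obtain ⟨a, rfl⟩ := Submodule.mkQ_surjective _ y
    exact ⟨Submodule.mkQ _ a, rfl⟩
  · intro y
    obtain ⟨a, rfl⟩ := Submodule.mkQ_surjective _ y
    constructor
    · intro hy
      have : (a : M) ∈ B := by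
        have h3 : (Submodule.mkQ (B.submoduleOf A)) a = 0 := hy
        rw [Submodule.mkQ_apply, Submodule.Quotient.mk_eq_zero] at h3
        exact h3
      exact ⟨Submodule.mkQ _ ⟨a, this⟩, rfl⟩
    · rintro ⟨z, hz⟩
      obtain ⟨b, rfl⟩ := Submodule.mkQ_surjective _ z
      have h3 : (Submodule.mkQ (C.submoduleOf A)) (Submodule.inclusion h2 b) =
        Submodule.mkQ (C.submoduleOf A) a := hz
      rw [← h3]
      show Submodule.mkQ (B.submoduleOf A) (Submodule.inclusion h2 b) = 0
      rw [Submodule.mkQ_apply, Submodule.Quotient.mk_eq_zero]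
      exact b.2

theorem ln_eq_zero {A B : Submodule R M} (h : ln A B = 0) : A ≤ B := by
  unfold ln at h
  rw [Module.length_eq_zero_iff, Submodule.Quotient.subsingleton_iff] at h
  intro a ha
  have : (⟨a, ha⟩ : A) ∈ B.submoduleOf A := by rw [h]; trivial
  exact this

theorem ln_self_of_le {A B : Submodule R M} (h : A ≤ B) : ln A B = 0 := by
  unfold ln
  rw [Module.length_eq_zero_iff, Submodule.Quotient.subsingleton_iff]
  rw [eq_top_iff]
  intro a _
  exact h a.2

end

end Pool.Agent.Q121.MM
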