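import Pool.Agent.Q121.MM.Frac

set_option autoImplicit false
set_option linter.unusedSectionVars false

/-! Rank one modules over one-dimensional local domains with a stable maximal ideal. -/

namespace Pool.Agent.Q121.MM

open Submodule IsLocalRing
open scoped nonZeroDivisors TensorProduct

section

variable {R : Type*} [CommRing R] [IsDomain R] [IsLocalRing R] {K : Type*} [Field K] [Algebra R K]
  [IsFractionRing R K]

variable (R K) in
/-- the maximal ideal, in the field of fractions -/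
def M0 : Submodule R K := Submodule.map (Algebra.linearMap R K) (maximalIdeal R)

theorem mem_M0 {y : K} : y ∈ M0 R K ↔ ∃ r ∈ maximalIdeal R, algebraMap R K r = y := Iff.rfl

theorem M0_mul (N : Submodule R K) : M0 R K * N = maximalIdeal R • N := by
  apply le_antisymm
  · rw [Submodule.mul_le]
    rintro _ ⟨r, hr, rfl⟩ n hn
    rw [Algebra.linearMap_apply, ← Algebra.smul_def]
    exact Submodule.smul_mem_smul hr hn
  · rw [Submodule.smul_le]
    intro r hr n hn
    rw [Algebra.smul_def]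
    exact Submodule.mul_mem_mul ⟨r, hr, rfl⟩ hn

theorem M0_le_one : M0 R K ≤ 1 := by
  rintro _ ⟨r, -, rfl⟩
  exact Submodule.algebraMap_mem r

theorem M0_mul_le (N : Submodule R K) : M0 R K * N ≤ N := by
  rw [M0_mul]
  exact Submodule.smul_le_right

theorem M0_mul_ne_bot (h : ¬ IsField R) {N : Submodule R K} (hN : N ≠ ⊥) : M0 R K * N ≠ ⊥ := by
  refine mul_ne_bot ?_ hN
  intro h0
  apply h
  rw [IsLocalRing.isField_iff_maximalIdeal_eq]
  rw [eq_bot_iff]
  intro r hr
  have : algebraMap R K r ∈ M0 R K := ⟨r, hr, rfl⟩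
  rw [h0, Submodule.mem_bot] at this
  rw [Ideal.mem_bot]
  exact (FaithfulSMul.algebraMap_eq_zero_iff R K).1 this

/-- Nakayama -/
theorem eq_of_M0 {N P : Submodule R K} (hN : N.FG) (h : N ≤ P ⊔ M0 R K * N) : N ≤ P := by
  rw [M0_mul] at h
  exact Submodule.le_of_le_smul_of_le_jacobson_bot hN (IsLocalRing.maximalIdeal_le_jacobson _) h

/-- the number of generators -/
theorem ln_M0 {N : Submodule R K} (hN : N.FG) :
    ln N (M0 R K * N) = Module.finrank (R ⧸ maximalIdeal R) ((R ⧸ maximalIdeal R) ⊗[R] N) := by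
  letI : Field (R ⧸ maximalIdeal R) := Ideal.Quotient.field _
  have : Module.Finite R N := Module.Finite.iff_fg.2 hN
  have : Module.Finite (R ⧸ maximalIdeal R) ((R ⧸ maximalIdeal R) ⊗[R] N) := inferInstance
  rw [← Module.length_eq_finrank, ← Module.length_eq_of_surjective (S := R) (R := R ⧸ maximalIdeal R)
    Ideal.Quotient.mk_surjective, (TensorProduct.quotTensorEquivQuotSMul N (maximalIdeal R)).length_eq]
  unfold ln
  have e : (M0 R K * N).submoduleOf N = maximalIdeal R • (⊤ : Submodule R N) := by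
    apply Submodule.map_injective_of_injective N.injective_subtype
    rw [Submodule.submoduleOf, Submodule.map_comap_eq, Submodule.range_subtype,
      inf_eq_right.2 (M0_mul_le N), Submodule.map_smul'', Submodule.map_top, Submodule.range_subtype, M0_mul]
  rw [e]

/-- one generator -/
theorem eq_sp_of_ln {N : Submodule R K} (hN : N.FG) (h : ln N (M0 R K * N) = 1) :
    ∃ a : K, N = sp R a := by
  have h1 : ¬ N ≤ M0 R K * N := by
    intro h2
    rw [ln_self_of_le h2] at h
    exact zero_ne_one h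
  obtain ⟨a, ha, ha'⟩ := SetLike.not_le_iff_exists.1 h1
  refine ⟨a, le_antisymm ?_ (by
    unfold sp
    rw [Submodule.span_singleton_le_iff_mem]
    exact ha)⟩
  apply eq_of_M0 hN
  have hle : sp R a ⊔ M0 R K * N ≤ N := sup_le (by
    unfold sp
    rw [Submodule.span_singleton_le_iff_mem]
    exact ha) (M0_mul_le N)
  have hadd := ln_add (le_sup_right : M0 R K * N ≤ sp R a ⊔ M0 R K * N) hle
  rw [h] at hadd
  have h3 : ln (sp R a ⊔ M0 R K * N) (M0 R K * N) ≠ 0 := by
    intro h4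
    have h5 := ln_eq_zero h4
    exact ha' (h5 ((le_sup_left : sp R a ≤ _) (Submodule.mem_span_singleton_self a)))
  have h4 : ln N (sp R a ⊔ M0 R K * N) = 0 := by
    by_contra h5
    have h6 : (1 : ℕ∞) ≤ ln N (sp R a ⊔ M0 R K * N) := Order.one_le_iff_pos.2 (pos_iff_ne_zero.2 h5)
    have h7 : (1 : ℕ∞) ≤ ln (sp R a ⊔ M0 R K * N) (M0 R K * N) := Order.one_le_iff_pos.2 (pos_iff_ne_zero.2 h3)
    have h8 : (1 : ℕ∞) + 1 ≤ 1 := by
      calc (1 : ℕ∞) + 1 ≤ _ := add_le_add h7 h6
        _ = 1 := hadd.symm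
    exact absurd h8 (by decide)
  exact ln_eq_zero h4

/-- canonical ideals (Herzog, Kunz) -/
structure IsCanonicalIdeal (W : Submodule R K) : Prop where
  ne_bot : W ≠ ⊥
  fg : W.FG
  dual : ∀ N : Submodule R K, N ≠ ⊥ → N.FG → W / (W / N) = N

/-- the maximal ideal is stable, with blow up `S` -/
structure Stable (S : Submodule R K) (e : ℕ∞) : Prop where
  one : 1 ≤ S
  mul : S * S = S
  max : M0 R K * S = M0 R K
  fg : S.FG
  len : ∀ T : Submodule R K, T.FG → T ≠ ⊥ → S * T = T → ln T (M0 R K * T) = e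

variable [IsNoetherianRing R] [Ring.KrullDimLE 1 R]

theorem div_ne_bot {W N : Submodule R K} (hW : W ≠ ⊥) (hN : N.FG) : W / N ≠ ⊥ := by
  obtain ⟨r, hr, h⟩ := exists_smul_le hN hW
  intro h0
  have : algebraMap R K r ∈ W / N := by
    rw [Submodule.mem_div_iff_forall_mul_mem]
    intro y hy
    rw [← Algebra.smul_def]
    exact h y hy
  rw [h0, Submodule.mem_bot, FaithfulSMul.algebraMap_eq_zero_iff] at this
  exact hr this

theorem div_fg {W N : Submodule R K} (hW : W.FG) (hN : N ≠ ⊥) : (W / N).FG := by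
  obtain ⟨a, ha, ha0⟩ := exists_ne_zero hN
  have h1 : (sp R a⁻¹ * W).FG := Submodule.FG.mul (Submodule.fg_span_singleton _) hW
  refine fg_of_le h1 fun y hy => ?_
  rw [Submodule.mem_div_iff_forall_mul_mem] at hy
  exact mem_sp_mul.2 ⟨y * a, hy a ha, by field_simp⟩

variable {S W : Submodule R K} {e : ℕ∞}

theorem Stable.le_mul (hS : Stable S e) (N : Submodule R K) : N ≤ S * N := by
  calc N = 1 * N := (one_mul N).symm
    _ ≤ S * N := mul_le_mul_left hS.one N

theorem Stable.add (hS : Stable S e) {N : Submodule R K} (h1 : N.FG) (h2 : N ≠ ⊥) :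
    ln N (M0 R K * N) + ln (S * N) N = e := by
  have h3 : S * (S * N) = S * N := by rw [← mul_assoc, hS.mul]
  have h4 := hS.len (S * N) (hS.fg.mul h1) (fun h => h2 (le_bot_iff.1 (h ▸ hS.le_mul N))) h3
  rw [← mul_assoc, hS.max] at h4
  rw [← h4, ln_add (M0_mul_le N) (hS.le_mul N)]

theorem Stable.dual_le (hS : Stable S e) (hW : IsCanonicalIdeal W) {N : Submodule R K} (h1 : N.FG) (h2 : N ≠ ⊥) :
    ln (S * N) N ≤ ln (W / N) (M0 R K * (W / N)) := by
  refine ln_le_of_strictAnti (hS.le_mul N) (M0_mul_le _) (fun T => W / T) (fun T hT1 hT2 => ⟨?_, ?_⟩)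
    fun T₁ T₂ hT1 hT2 h12 => ?_
  · rw [Submodule.le_div_iff_mul_le]
    calc M0 R K * (W / N) * T ≤ M0 R K * (W / N) * (S * N) := mul_le_mul_right hT2 _
      _ = (M0 R K * S) * ((W / N) * N) := by ring
      _ = M0 R K * ((W / N) * N) := by rw [hS.max]
      _ ≤ M0 R K * W := mul_le_mul_right (Submodule.le_div_iff_mul_le.1 le_rfl) _
      _ ≤ W := M0_mul_le W
  · rw [Submodule.le_div_iff_mul_le]
    calc W / T * N ≤ W / T * T := mul_le_mul_right hT1 _
      _ ≤ W := Submodule.le_div_iff_mul_le.1 le_rfl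
  · have hSN : (S * N).FG := hS.fg.mul h1
    have h3 : T₂.FG := fg_of_le hSN hT2
    have h4 : T₁.FG := fg_of_le h3 h12.le
    have h5 : T₁ ≠ ⊥ := fun h => h2 (le_bot_iff.1 (h ▸ hT1))
    have h6 : T₂ ≠ ⊥ := fun h => h5 (le_bot_iff.1 (h ▸ h12.le))
    refine lt_of_le_of_ne ?_ fun heq => ?_
    · rw [Submodule.le_div_iff_mul_le]
      calc W / T₂ * T₁ ≤ W / T₂ * T₂ := mul_le_mul_right h12.le _
        _ ≤ W := Submodule.le_div_iff_mul_le.1 le_rfl
    · have h7 := hW.dual T₁ h5 h4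
      rw [← heq, hW.dual T₂ h6 h3] at h7
      exact absurd h7 h12.ne'

/-- the arithmetic -/
theorem arith {a b s t e : ℕ∞} (he : e ≠ ⊤) (ha : a ≠ 0) (hb : b ≠ 0) (h1 : a + s = e) (h2 : s ≤ b) (h3 : a * b + t = e)
    (hts : t = 0 → s = 0) : a = 1 ∨ b = 1 := by
  have ha' : a ≠ ⊤ := fun h => he (by rw [← h1, h, top_add])
  have hs' : s ≠ ⊤ := fun h => he (by rw [← h1, h, add_top])
  have ht' : t ≠ ⊤ := fun h => he (by rw [← h3, h, add_top])
  have hb' : b ≠ ⊤ := by
    intro h
    apply he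
    rw [← h3, h, ENat.mul_top ha, top_add]
  lift a to ℕ using ha'
  lift b to ℕ using hb'
  lift s to ℕ using hs'
  lift t to ℕ using ht'
  lift e to ℕ using he
  norm_cast at *
  by_contra hcon
  push Not at hcon
  have ha2 : 2 ≤ a := by omega
  have hb2 : 2 ≤ b := by omega
  obtain ⟨a', rfl⟩ := Nat.exists_eq_add_of_le ha2
  obtain ⟨b', rfl⟩ := Nat.exists_eq_add_of_le hb2
  have e1 : (2 + a') * (2 + b') = 4 + 2 * a' + 2 * b' + a' * b' := by ring
  rw [e1] at h3
  have h4 : 0 ≤ a' * b' := Nat.zero_le _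
  have h5 : a' = 0 := by omega
  subst h5
  have h6 : b' = 0 := by omega
  subst h6
  have h7 : t = 0 := by omega
  have h8 := hts h7
  omega

theorem Stable.main (hS : Stable S e) (hW : IsCanonicalIdeal W) (hR : ¬ IsField R) {I : Submodule R K} (h1 : I.FG) (h2 : I ≠ ⊥)
    (h : ln (I * (W / I)) (M0 R K * (I * (W / I))) =
      ln I (M0 R K * I) * ln (W / I) (M0 R K * (W / I))) :
    (∃ a : K, a ≠ 0 ∧ I = sp R a) ∨ ∃ a : K, a ≠ 0 ∧ I = sp R a * W := by
  have hJ1 : (W / I).FG := div_fg hW.fg h2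
  have hJ2 : W / I ≠ ⊥ := div_ne_bot hW.ne_bot h1
  have h0 : ∀ N : Submodule R K, N.FG → N ≠ ⊥ → ln N (M0 R K * N) ≠ 0 := by
    intro N hN hN' h0
    apply hN'
    have := ln_eq_zero h0
    have h3 : N ≤ ⊥ := eq_of_M0 hN (by rw [bot_sup_eq]; exact this)
    exact le_bot_iff.1 h3
  have e1 := hS.add h1 h2
  have e2 := hS.dual_le hW h1 h2
  have e3 := hS.add (h1.mul hJ1) (mul_ne_bot h2 hJ2)
  rw [h] at e3
  have he : e ≠ ⊤ := by
    rw [← e3, ← h]
    rw [← ln_add (M0_mul_le _) (hS.le_mul _)]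
    exact ln_ne_top (hS.fg.mul (h1.mul hJ1)) (M0_mul_ne_bot hR (mul_ne_bot h2 hJ2))
  have hts : ln (S * (I * (W / I))) (I * (W / I)) = 0 → ln (S * I) I = 0 := by
    intro ht
    have h3 := ln_eq_zero ht
    apply ln_self_of_le
    calc S * I ≤ W / (W / I) := by
          rw [Submodule.le_div_iff_mul_le, mul_assoc]
          exact h3.trans (by
            rw [mul_comm]
            exact Submodule.le_div_iff_mul_le.1 le_rfl)
      _ = I := hW.dual I h2 h1
  rcases arith he (h0 I h1 h2) (h0 _ hJ1 hJ2) e1 e2 e3 hts with h3 | h3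
  · left
    obtain ⟨a, ha⟩ := eq_sp_of_ln h1 h3
    refine ⟨a, ?_, ha⟩
    rintro rfl
    apply h2
    rw [ha, sp, Submodule.span_zero_singleton]
  · right
    obtain ⟨a, ha⟩ := eq_sp_of_ln hJ1 h3
    have ha0 : a ≠ 0 := by
      rintro rfl
      apply hJ2
      rw [ha, sp, Submodule.span_zero_singleton]
    refine ⟨a⁻¹, inv_ne_zero ha0, ?_⟩
    have h4 := hW.dual I h2 h1
    rw [ha] at h4
    rw [← h4]
    apply le_antisymm
    · intro y hy
      rw [Submodule.mem_div_iff_forall_mul_mem] at hy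
      exact mem_sp_mul.2 ⟨y * a, hy a (Submodule.mem_span_singleton_self a), by field_simp⟩
    · rw [Submodule.le_div_iff_mul_le]
      calc sp R a⁻¹ * W * sp R a = sp R a * (sp R a⁻¹ * W) := by ring
        _ = W := sp_mul_inv ha0 W
        _ ≤ W := le_rfl

end

end Pool.Agent.Q121.MM
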