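import Pool.Agent.Q121.MM.Blow

set_option autoImplicit false
set_option linter.unusedSectionVars false

/-! Torsion-free tensor products of rank one modules. -/

namespace Pool.Agent.Q121.MM

open Submodule IsLocalRing
open scoped nonZeroDivisors TensorProduct

/-- torsion-free modules over a domain -/
def TorsionFree (R : Type*) [CommRing R] (N : Type*) [AddCommGroup N] [Module R N] : Prop :=
  ∀ (r : R) (x : N), r • x = 0 → r = 0 ∨ x = 0

theorem TorsionFree.of_equiv {R : Type*} [CommRing R] {M N : Type*} [AddCommGroup M] [Module R M]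
    [AddCommGroup N] [Module R N] (e : M ≃ₗ[R] N) (h : TorsionFree R M) : TorsionFree R N := by
  intro r x hx
  rcases h r (e.symm x) (by rw [← map_smul, hx, map_zero]) with h1 | h1
  · exact Or.inl h1
  · exact Or.inr (e.symm.map_eq_zero_iff.1 h1)

section

variable {R : Type*} [CommRing R] [IsDomain R] {K : Type*} [Field K] [Algebra R K]
  [IsFractionRing R K]

theorem exists_common {u : K} (hu : u ≠ 0) (a : K) : ∃ q p : R, q ≠ 0 ∧ q • a = p • u := by
  obtain ⟨p, q, hq, h⟩ := IsFractionRing.div_surjective (A := R) (a / u)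
  refine ⟨q, p, nonZeroDivisors.ne_zero hq, ?_⟩
  have hq' : algebraMap R K q ≠ 0 := by
    rw [Ne, FaithfulSMul.algebraMap_eq_zero_iff]
    exact nonZeroDivisors.ne_zero hq
  rw [Algebra.smul_def, Algebra.smul_def]
  field_simp at h
  rw [← h]

theorem exists_common_tens {I J : Submodule R K} {u v : K} (hu : u ∈ I) (hv : v ∈ J) (hu0 : u ≠ 0) (hv0 : v ≠ 0)
    (z : I ⊗[R] J) : ∃ q p : R, q ≠ 0 ∧ q • z = p • ((⟨u, hu⟩ : I) ⊗ₜ[R] (⟨v, hv⟩ : J)) := by
  induction z using TensorProduct.induction_on with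
  | zero => exact ⟨1, 0, one_ne_zero, by rw [smul_zero, zero_smul]⟩
  | tmul a b =>
    obtain ⟨q, p, hq, h⟩ := exists_common (R := R) hu0 a.1
    obtain ⟨q', p', hq', h'⟩ := exists_common (R := R) hv0 b.1
    refine ⟨q * q', p * p', mul_ne_zero hq hq', ?_⟩
    have e1 : q • a = p • (⟨u, hu⟩ : I) := Subtype.ext h
    have e2 : q' • b = p' • (⟨v, hv⟩ : J) := Subtype.ext h'
    rw [← TensorProduct.smul_tmul_smul, ← TensorProduct.smul_tmul_smul, e1, e2]
  | add x y hx hy =>
    obtain ⟨q, p, hq, h⟩ := hx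
    obtain ⟨q', p', hq', h'⟩ := hy
    refine ⟨q * q', q' * p + q * p', mul_ne_zero hq hq', ?_⟩
    rw [smul_add, add_smul, mul_comm q q', mul_smul, h, mul_comm q' q, mul_smul, h', smul_smul, smul_smul]

theorem mulMap_injective {I J : Submodule R K} (hI : I ≠ ⊥) (hJ : J ≠ ⊥) (h : TorsionFree R (I ⊗[R] J)) :
    Function.Injective (Submodule.mulMap I J) := by
  obtain ⟨u, hu, hu0⟩ := exists_ne_zero hI
  obtain ⟨v, hv, hv0⟩ := exists_ne_zero hJ
  rw [injective_iff_map_eq_zero]
  intro z hz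
  obtain ⟨q, p, hq, hqp⟩ := exists_common_tens hu hv hu0 hv0 z
  have h1 : Submodule.mulMap I J (q • z) = 0 := by rw [map_smul, hz, smul_zero]
  rw [hqp, map_smul, Submodule.mulMap_tmul] at h1
  have hp : p = 0 := by
    rcases smul_eq_zero.1 h1 with h2 | h2
    · exact h2
    · exact absurd h2 (mul_ne_zero hu0 hv0)
  rw [hp, zero_smul] at hqp
  exact (h q z hqp).resolve_left hq

/-- the tensor product is the product -/
noncomputable def tensEquiv {I J : Submodule R K} (hI : I ≠ ⊥) (hJ : J ≠ ⊥) (h : TorsionFree R (I ⊗[R] J)) :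
    (I ⊗[R] J) ≃ₗ[R] (I * J : Submodule R K) :=
  (LinearEquiv.ofInjective _ (mulMap_injective hI hJ h)).trans
    (LinearEquiv.ofEq _ _ (Submodule.mulMap_range I J))

/-- homomorphisms between fractional ideals are multiplications -/
theorem hom_eq {I W : Submodule R K} (f : I →ₗ[R] W) {a : K} (ha : a ∈ I) (ha0 : a ≠ 0) (y : I) :
    ((f y : W) : K) = ((f ⟨a, ha⟩ : W) : K) / a * y := by
  obtain ⟨q, p, hq, h⟩ := exists_common (R := R) ha0 y.1
  have e1 : q • y = p • (⟨a, ha⟩ : I) := Subtype.ext h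
  have e2 := congrArg f e1
  rw [map_smul, map_smul] at e2
  have e3 : q • ((f y : W) : K) = p • ((f ⟨a, ha⟩ : W) : K) := congrArg Subtype.val e2
  have hq' : algebraMap R K q ≠ 0 := by
    rwa [Ne, FaithfulSMul.algebraMap_eq_zero_iff]
  rw [Algebra.smul_def, Algebra.smul_def] at e3 h
  apply mul_left_cancel₀ hq'
  rw [e3]
  have : algebraMap R K q * (((f ⟨a, ha⟩ : W) : K) / a * y) = ((f ⟨a, ha⟩ : W) : K) / a * (algebraMap R K q * y) := by
    ring
  rw [this, h]
  field_simp

/-- the multiplication map -/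
def divMap (I W : Submodule R K) : (W / I : Submodule R K) →ₗ[R] (I →ₗ[R] W) where
  toFun b :=
    { toFun := fun y => ⟨b.1 * y.1, Submodule.mem_div_iff_forall_mul_mem.1 b.2 y.1 y.2⟩
      map_add' := fun y z => Subtype.ext (mul_add _ _ _)
      map_smul' := fun r y => Subtype.ext (by
        show b.1 * (r • y.1) = r • (b.1 * y.1)
        rw [mul_smul_comm]) }
  map_add' b c := by
    ext y
    exact add_mul _ _ _
  map_smul' r b := by
    ext y
    exact smul_mul_assoc _ _ _

theorem divMap_bijective {I W : Submodule R K} (hI : I ≠ ⊥) : Function.Bijective (divMap I W) := by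
  obtain ⟨a, ha, ha0⟩ := exists_ne_zero hI
  constructor
  · rw [injective_iff_map_eq_zero]
    intro b hb
    have h1 : (((divMap I W b) ⟨a, ha⟩ : W) : K) = 0 := by rw [hb]; rfl
    have h2 : b.1 * a = 0 := h1
    exact Subtype.ext ((mul_eq_zero.1 h2).resolve_right ha0)
  · intro f
    refine ⟨⟨((f ⟨a, ha⟩ : W) : K) / a, ?_⟩, ?_⟩
    · rw [Submodule.mem_div_iff_forall_mul_mem]
      intro y hy
      rw [← hom_eq f ha ha0 ⟨y, hy⟩]
      exact (f ⟨y, hy⟩).2
    · ext y
      exact (hom_eq f ha ha0 y).symm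

/-- the dual of a fractional ideal -/
noncomputable def divEquiv {I W : Submodule R K} (hI : I ≠ ⊥) : (W / I : Submodule R K) ≃ₗ[R] (I →ₗ[R] W) :=
  LinearEquiv.ofBijective _ (divMap_bijective hI)

variable [IsLocalRing R]

theorem ln_tens {I J : Submodule R K} (hI : I ≠ ⊥) (hJ : J ≠ ⊥) (h1 : I.FG) (h2 : J.FG)
    (h : TorsionFree R (I ⊗[R] J)) :
    ln (I * J) (M0 R K * (I * J)) = ln I (M0 R K * I) * ln J (M0 R K * J) := by
  letI : Field (R ⧸ maximalIdeal R) := Ideal.Quotient.field _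
  rw [ln_M0 (h1.mul h2), ln_M0 h1, ln_M0 h2]
  have e1 := (TensorProduct.AlgebraTensorModule.congr (LinearEquiv.refl (R ⧸ maximalIdeal R) (R ⧸ maximalIdeal R))
    (tensEquiv hI hJ h)).finrank_eq
  have e2 := (TensorProduct.AlgebraTensorModule.distribBaseChange R (R ⧸ maximalIdeal R) I J).finrank_eq
  rw [← e1, e2, Module.finrank_tensorProduct]
  norm_cast

end

end Pool.Agent.Q121.MM
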